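import Pool.Agent.Helper59.KS.Defs

/-!
Reversal of a tournament on `Fin n`.
-/

set_option autoImplicit false

open Finset

namespace Pool.Agent.Helper59.KS

theorem rvT_tour {n : ℕ} {T : Fin n → Fin n → Prop} (hT : Tour T) : Tour (rvT T) := by
  refine ⟨fun v => hT.1 _, fun u v huv => hT.2 _ _ ?_⟩
  intro h
  exact huv (Fin.rev_injective h).symm

/-- the reversed set -/
def rvF {n : ℕ} (X : Finset (Fin n)) : Finset (Fin n) := univ.filter fun i => Fin.rev i ∈ X

@[simp] theorem mem_rvF {n : ℕ} {X : Finset (Fin n)} {i : Fin n} :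
    i ∈ rvF X ↔ Fin.rev i ∈ X := by
  simp [rvF]

/-- reversal of pairs -/
def rvP {n : ℕ} (p : Fin n × Fin n) : Fin n × Fin n := (Fin.rev p.2, Fin.rev p.1)

theorem rvP_rvP {n : ℕ} (p : Fin n × Fin n) : rvP (rvP p) = p := by
  simp [rvP]

theorem card_eq_of_rvP {n : ℕ} {A B : Finset (Fin n × Fin n)}
    (h : ∀ p, p ∈ A ↔ rvP p ∈ B) : A.card = B.card := by
  refine Finset.card_nbij' rvP rvP ?_ ?_ ?_ ?_
  · intro p hp
    exact (h p).1 hp
  · intro p hp
    refine (h _).2 ?_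
    rw [rvP_rvP]
    exact hp
  · intro p _
    exact rvP_rvP p
  · intro p _
    exact rvP_rvP p

theorem rvT_median {n : ℕ} {T : Fin n → Fin n → Prop} (hT : Median T) : Median (rvT T) := by
  intro a b W
  have h1 : (fw a b W).card = (fw (n - 1 - b) (n - 1 - a) (rvF Wᶜ)).card := by
    apply card_eq_of_rvP
    rintro ⟨i, j⟩
    rw [mem_fw, mem_fw]
    simp only [rvP, mem_rvF, Fin.rev_rev, mem_compl, not_not, Fin.rev_lt_rev, Fin.val_rev]
    have hi := i.2
    have hj := j.2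
    constructor
    · rintro ⟨h1, h2, h3, h4, h5⟩
      have h4' : i.val < j.val := h4
      exact ⟨h2, h1, by omega, h4, by omega⟩
    · rintro ⟨h1, h2, h3, h4, h5⟩
      have h4' : i.val < j.val := h4
      exact ⟨h2, h1, by omega, h4, by omega⟩
  have h2 : (fwT (rvT T) a b W).card = (fwT T (n - 1 - b) (n - 1 - a) (rvF Wᶜ)).card := by
    apply card_eq_of_rvP
    rintro ⟨i, j⟩
    rw [mem_fwT, mem_fwT]
    simp only [rvP, rvT, mem_rvF, Fin.rev_rev, mem_compl, not_not, Fin.rev_lt_rev, Fin.val_rev]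
    have hi := i.2
    have hj := j.2
    constructor
    · rintro ⟨h1, h2, h3, h4, h5, h6⟩
      have h4' : i.val < j.val := h4
      exact ⟨h2, h1, by omega, h4, by omega, h6⟩
    · rintro ⟨h1, h2, h3, h4, h5, h6⟩
      have h4' : i.val < j.val := h4
      exact ⟨h2, h1, by omega, h4, by omega, h6⟩
  rw [h1, h2]
  exact hT _ _ _

theorem rvT_arcs {n : ℕ} (T : Fin n → Fin n → Prop) (X Y : Finset (Fin n)) :
    (arcs (rvT T) X Y).card = (arcs T (rvF Y) (rvF X)).card := by
  apply card_eq_of_rvP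
  rintro ⟨i, j⟩
  simp only [mem_arcs, rvP, rvT, mem_rvF, Fin.rev_rev]
  tauto

theorem rvT_conn {n k : ℕ} {T : Fin n → Fin n → Prop} (hC : Conn T k) : Conn (rvT T) k := by
  intro X hX hX'
  rw [rvT_arcs]
  have h1 : rvF Xᶜ = (rvF X)ᶜ := by
    ext i; simp
  rw [h1]
  have h2 := hC (rvF X)ᶜ ?_ ?_
  · rwa [compl_compl] at h2
  · rw [nonempty_iff_ne_empty]
    intro h
    apply hX'
    rw [compl_eq_empty_iff] at h
    ext i
    have h3 : Fin.rev i ∈ rvF X := by rw [h]; exact mem_univ _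
    simpa using h3
  · intro h
    rw [compl_eq_univ_iff] at h
    obtain ⟨x, hx⟩ := hX
    have h3 : Fin.rev x ∈ rvF X := by simpa using hx
    rw [h] at h3
    simp at h3

theorem goodR_of_rvT {n : ℕ} {T : Fin n → Fin n → Prop} {k q m : ℕ} (hq : q < n)
    (h : GoodL (rvT T) k (n - 1 - q) m) : GoodR T k q m := by
  intro Y hY hYR
  have h1 := h (rvF Y) ?_ ?_
  · rw [rvT_arcs] at h1
    have h2 : rvF (rvF Y) = Y := by
      ext i; simp
    have h3 : rvF ((Lft n (n - 1 - q) m ∪ Rgt n (n - 1 - q) m) \ rvF Y) =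
        (Lft n q m ∪ Rgt n q m) \ Y := by
      ext i
      simp only [mem_rvF, mem_sdiff, mem_union, mem_Lft, mem_Rgt, Fin.rev_rev, Fin.val_rev]
      have hi := i.2
      constructor
      · rintro ⟨h4 | h4, h5⟩
        · exact ⟨Or.inr (by omega), h5⟩
        · exact ⟨Or.inl (by omega), h5⟩
      · rintro ⟨h4 | h4, h5⟩
        · exact ⟨Or.inr (by omega), h5⟩
        · exact ⟨Or.inl (by omega), h5⟩
    rw [h2, h3] at h1
    exact h1
  · obtain ⟨y, hy⟩ := hY
    exact ⟨Fin.rev y, by simpa using hy⟩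
  · intro i hi
    rw [mem_rvF] at hi
    have h2 := hYR hi
    rw [mem_Rgt, Fin.val_rev] at h2
    rw [mem_Lft]
    have := i.2
    omega

end Pool.Agent.Helper59.KS
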