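import Pool.Agent.Helper26.KS.RV
import Pool.Agent.Helper60.KS.ZL

/-!
A good zone exists.
-/

set_option autoImplicit false

open Finset

namespace Pool.Agent.Helper59.KS

theorem rvT_large {n : ℕ} (T : Fin n → Fin n → Prop) (i₀ N β : ℕ) (hn : i₀ + N ≤ n)
    (hI : ∀ W : Finset (Fin n), i₀ ≤ W.card → W.card ≤ i₀ + N → β < (arcs T Wᶜ W).card) :
    ∀ W : Finset (Fin n), n - i₀ - N ≤ W.card → W.card ≤ n - i₀ - N + N →
      β < (arcs (rvT T) Wᶜ W).card := by
  intro W h1 h2
  rw [rvT_arcs]
  have h3 : rvF Wᶜ = (rvF W)ᶜ := by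
    ext i; simp
  have h4 : (rvF W).card = W.card := by
    refine Finset.card_nbij' Fin.rev Fin.rev ?_ ?_ ?_ ?_
    · intro i hi
      simpa using hi
    · intro i hi
      simpa using hi
    · intro i _
      exact Fin.rev_rev i
    · intro i _
      exact Fin.rev_rev i
  have h5 : ((rvF W)ᶜ).card = n - W.card := by
    rw [card_compl, Fintype.card_fin, h4]
  have h6 : W.card ≤ n := by
    have := card_le_univ W
    rwa [Fintype.card_fin] at this
  have h7 := hI (rvF W)ᶜ (by omega) (by omega)
  rw [compl_compl] at h7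
  rw [h3]
  exact h7

/-- BLOCK ZG (uses ZL, RV) -/
theorem good_zone {n : ℕ} (T : Fin n → Fin n → Prop) (hM : Median T) (k : ℕ)
    (hk : 1 ≤ k) (hC : Conn T k) (i₀ N m β : ℕ) (hm : 1 ≤ m) (hi : 2 * k ≤ i₀)
    (hN : 2 * m * (4 * k ^ 2 + 3) + 4 * k + 1 ≤ N) (hn : i₀ + N + 2 * k + 1 ≤ n)
    (hβ : 2 * m * N + 2 * k ≤ β)
    (hI : ∀ W : Finset (Fin n), i₀ ≤ W.card → W.card ≤ i₀ + N → β < (arcs T Wᶜ W).card) :
    ∃ q, i₀ + 2 * k + m ≤ q ∧ q + m + 2 * k ≤ i₀ + N ∧ GoodL T k q m ∧ GoodR T k q m := by
  classical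
  set S : ℕ := 4 * k ^ 2 + 3 with hS
  set q : ℕ → ℕ := fun s => i₀ + 2 * k + m + 2 * m * s with hq
  have hq1 : ∀ s, i₀ + 2 * k + m ≤ q s := fun s => by simp [hq]
  have hq2 : ∀ s, s < S → q s + m + 2 * k + 1 ≤ i₀ + N := by
    intro s hs
    have h1 : 2 * m * (s + 1) ≤ 2 * m * S := Nat.mul_le_mul_left _ hs
    have h2 : q s = i₀ + 2 * k + m + 2 * m * s := rfl
    rw [h2]
    nlinarith
  have hq3 : ∀ s t, s < t → q s + 2 * m ≤ q t := by
    intro s t hst
    have h1 : 2 * m * (s + 1) ≤ 2 * m * t := Nat.mul_le_mul_left _ hst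
    have h2 : q s = i₀ + 2 * k + m + 2 * m * s := rfl
    have h3 : q t = i₀ + 2 * k + m + 2 * m * t := rfl
    rw [h2, h3]
    nlinarith
  by_contra hcon
  push Not at hcon
  set A : Finset ℕ := (range S).filter fun s => ¬ GoodL T k (q s) m with hA
  set B : Finset ℕ := (range S).filter fun s => ¬ GoodL (rvT T) k (n - 1 - q s) m with hB
  have hAB : range S ⊆ A ∪ B := by
    intro s hs
    have hs' := mem_range.mp hs
    rw [mem_union, hA, hB, mem_filter, mem_filter]
    by_cases h1 : GoodL T k (q s) m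
    · right
      refine ⟨hs, fun h2 => ?_⟩
      have h3 := hq2 s hs'
      exact hcon (q s) (hq1 s) (by omega) h1 (goodR_of_rvT (by omega) h2)
    · exact Or.inl ⟨hs, h1⟩
  have hAc : A.card ≤ k * (2 * k - 1) + 1 := by
    have h1 : (A.image q).card = A.card := by
      apply card_image_of_injOn
      intro s _ t _ hst
      rcases lt_trichotomy s t with h | h | h
      · have := hq3 s t h
        omega
      · exact h
      · have := hq3 t s h
        omega
    rw [← h1]
    apply bad_left T hM k hk hC i₀ N m β hm hi hβ hI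
    · intro x hx
      obtain ⟨s, hs, rfl⟩ := mem_image.mp hx
      rw [hA, mem_filter, mem_range] at hs
      have h2 := hq2 s hs.1
      exact ⟨hq1 s, by omega, by omega⟩
    · intro x hx y hy hxy
      obtain ⟨s, hs, rfl⟩ := mem_image.mp hx
      obtain ⟨t, ht, rfl⟩ := mem_image.mp hy
      apply hq3
      by_contra hst
      rcases Nat.lt_or_ge t s with h | h
      · have := hq3 t s h
        omega
      · have : s = t := by omega
        rw [this] at hxy
        omega
    · intro x hx
      obtain ⟨s, hs, rfl⟩ := mem_image.mp hx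
      rw [hA, mem_filter] at hs
      exact hs.2
  have hBc : B.card ≤ k * (2 * k - 1) + 1 := by
    have hlt : ∀ s, s < S → q s < n := by
      intro s hs
      have := hq2 s hs
      omega
    have h1 : (B.image fun s => n - 1 - q s).card = B.card := by
      apply card_image_of_injOn
      intro s hs t ht hst
      rw [mem_coe, hB, mem_filter, mem_range] at hs ht
      have h4 := hlt s hs.1
      have h5 := hlt t ht.1
      simp only at hst
      rcases lt_trichotomy s t with h | h | h
      · have := hq3 s t h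
        omega
      · exact h
      · have := hq3 t s h
        omega
    rw [← h1]
    apply bad_left (rvT T) (rvT_median hM) k hk (rvT_conn hC) (n - i₀ - N) N m β hm (by omega) hβ
      (rvT_large T i₀ N β (by omega) hI)
    · intro x hx
      obtain ⟨s, hs, rfl⟩ := mem_image.mp hx
      rw [hB, mem_filter, mem_range] at hs
      have h2 := hq2 s hs.1
      have h3 := hq1 s
      refine ⟨by omega, by omega, by omega⟩
    · intro x hx y hy hxy
      obtain ⟨s, hs, rfl⟩ := mem_image.mp hx
      obtain ⟨t, ht, rfl⟩ := mem_image.mp hy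
      rw [hB, mem_filter, mem_range] at hs ht
      have h4 := hlt s hs.1
      have h5 := hlt t ht.1
      rcases lt_trichotomy s t with h | h | h
      · have := hq3 s t h
        omega
      · rw [h] at hxy
        omega
      · have := hq3 t s h
        omega
    · intro x hx
      obtain ⟨s, hs, rfl⟩ := mem_image.mp hx
      rw [hB, mem_filter] at hs
      exact hs.2
  have h1 := card_le_card hAB
  have h2 := card_union_le A B
  rw [card_range] at h1
  obtain ⟨j, rfl⟩ : ∃ j, k = j + 1 := ⟨k - 1, by omega⟩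
  have h3 : 2 * (j + 1) - 1 = 2 * j + 1 := by omega
  rw [h3] at hAc hBc
  have h4 : S ≤ 2 * ((j + 1) * (2 * j + 1) + 1) := by omega
  rw [hS] at h4
  nlinarith

end Pool.Agent.Helper59.KS
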